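import Mathlib
import Pool.Agent.TH484.PH.Crit

set_option autoImplicit false

namespace Pool.Agent.Results.MP_90b327_co.CriticalDensity

open Finset

/-- `cube d γ` is `γ^d`, the set of all `d`-tuples with entries in `γ`. -/
def cube {N : ℕ} (d : ℕ) (γ : Finset (Fin N)) : Finset (Fin d → Fin N) :=
  Fintype.piFinset (fun _ : Fin d => γ)

/-- A family `S` of subsets of `[N]^d` is good if there are `A ∈ S` and a nonempty `γ ⊆ [N]` with
`A ∩ γ^d = ∅` and `A ∪ γ^d ∈ S`. -/
def Good {N d : ℕ} (S : Finset (Finset (Fin d → Fin N))) : Prop :=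
  ∃ A ∈ S, ∃ γ : Finset (Fin N), γ.Nonempty ∧ Disjoint A (cube d γ) ∧ A ∪ cube d γ ∈ S

/-- The polynomial of degree at most `D` with coefficients `c` and values in the abelian group `G`:
`A ↦ ∑ c T`, the sum over all subsets `T ⊆ A` with at most `D` elements. -/
def poly {E G : Type} [AddCommGroup G] (D : ℕ) (c : Finset E → G) (A : Finset E) : G :=
  ∑ T ∈ A.powerset.filter (fun T => T.card ≤ D), c T

/-- The difference of `h` in direction `e`: `A ↦ h (A ∪ {e}) - h (A \ {e})`. -/
def diff {E : Type} [DecidableEq E] (e : E) (h : Finset E → ℝ) (A : Finset E) : ℝ :=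
  h (insert e A) - h (A.erase e)

/-- All differences of order `k` of `h` have constant sign: for all `e₁, …, e_k` the function
`diff e₁ (… (diff e_k h))` is nowhere negative or nowhere positive (which of the two may depend on
`e₁, …, e_k`). -/
def ConstSign {E : Type} [DecidableEq E] : ℕ → (Finset E → ℝ) → Prop
  | 0, h => (∀ A, 0 ≤ h A) ∨ (∀ A, h A ≤ 0)
  | k + 1, h => ∀ e, ConstSign k (diff e h)

/-- `F` is a structured family of subsets of `[N]^d`, of complexity `(D, k, r, G)`: it is
`{A : R (0 < h₁ A, …, 0 < h_r A, q A)}` for some condition `R`, where each `hᵢ` is a real function of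
`A` for which all differences of some order `j`, `1 ≤ j ≤ k`, have constant sign, and `q` is a
polynomial of degree at most `D` with values in `G` whose coefficient `c T` is zero unless any two
tuples in `T` have a common entry. -/
def Structured (D k r : ℕ) (G : Type) [AddCommGroup G] {d N : ℕ}
    (F : Finset (Finset (Fin d → Fin N))) : Prop :=
  ∃ (h : Fin r → Finset (Fin d → Fin N) → ℝ) (c : Finset (Fin d → Fin N) → G)
    (R : (Fin r → Prop) → G → Prop),
    (∀ i, ∃ j, 1 ≤ j ∧ j ≤ k ∧ ConstSign j (h i)) ∧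
    (∀ T, c T ≠ 0 → ∀ x ∈ T, ∀ y ∈ T, ∃ i j, x i = y j) ∧
    ∀ A, A ∈ F ↔ R (fun i => 0 < h i A) (poly D c A)

lemma constSign_iff {E : Type} [DecidableEq E] (k : ℕ) : ∀ h : Finset E → ℝ, ConstSign k h ↔
    Pool.Agent.TH484.PH.Reg k h := by
  induction k with
  | zero => exact fun h => Iff.rfl
  | succ k ih => exact fun h => forall_congr' fun e => ih _

lemma structured_iff (D k r : ℕ) (G : Type) [AddCommGroup G] {d N : ℕ}
    (F : Finset (Finset (Fin d → Fin N))) : Structured D k r G F ↔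
      Pool.Agent.TH484.PH.StructuredF D k r G F := by
  constructor
  · rintro ⟨h, c, R, h1, h2, h3⟩
    refine ⟨h, c, R, fun i => ?_, h2, h3⟩
    obtain ⟨j, h4, h5, h6⟩ := h1 i
    exact ⟨j, h4, h5, (constSign_iff j _).1 h6⟩
  · rintro ⟨h, c, R, h1, h2, h3⟩
    refine ⟨h, c, R, fun i => ?_, h2, h3⟩
    obtain ⟨j, h4, h5, h6⟩ := h1 i
    exact ⟨j, h4, h5, (constSign_iff j _).2 h6⟩

/-- For every `d ≥ 1` there is a critical density `θ_d ≥ 0` with the following two properties for every
complexity `(D, k, r, G)`, `G` a finite abelian group.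
(1) For all `θ > θ_d` and `δ > 0` and all large `N`: if `F` is a structured family of subsets of
`[N]^d` with at least `δ 2^(N^d)` elements, then every family `S` which contains at least the
proportion `θ` of `F` is good.
(2) For all `ε > 0` and all large `N` there is a family `S` of subsets of `[N]^d` which is not good
and is uniform with density `θ_d`: for every structured family `F` (for example the family of all
sets) the numbers `|F ∩ S|` and `θ_d |F|` differ by at most `ε 2^(N^d)`. -/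
theorem result : ∀ d : ℕ, 1 ≤ d → ∃ θd : ℝ, 0 ≤ θd ∧
    ∀ (D k r : ℕ) (G : Type) [AddCommGroup G] [Finite G],
      (∀ θ δ : ℝ, θd < θ → 0 < δ → ∃ N₀ : ℕ, ∀ N : ℕ, N₀ ≤ N →
        ∀ F S : Finset (Finset (Fin d → Fin N)), Structured D k r G F →
          δ * (2 : ℝ) ^ (N ^ d) ≤ F.card → θ * F.card ≤ (F ∩ S).card → Good S) ∧
      (∀ ε : ℝ, 0 < ε → ∃ N₀ : ℕ, ∀ N : ℕ, N₀ ≤ N →
        ∃ S : Finset (Finset (Fin d → Fin N)), ¬ Good S ∧
          ∀ F : Finset (Finset (Fin d → Fin N)), Structured D k r G F →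
            |((F ∩ S).card : ℝ) - θd * F.card| ≤ ε * (2 : ℝ) ^ (N ^ d)) := by
  intro d hd
  obtain ⟨θd, h0, -, h2⟩ := Pool.Agent.TH484.PH.crit d hd
  refine ⟨θd, h0, fun D k r G _ _ => ?_⟩
  obtain ⟨h3, h4⟩ := h2 D k r G
  refine ⟨fun θ δ hθ hδ => ?_, fun ε hε => ?_⟩
  · obtain ⟨N₀, hN₀⟩ := h3 θ δ hθ hδ
    exact ⟨N₀, fun N hN F S hF => hN₀ N hN F S ((structured_iff D k r G F).1 hF)⟩
  · obtain ⟨N₀, hN₀⟩ := h4 ε hε
    refine ⟨N₀, fun N hN => ?_⟩
    obtain ⟨S, hS, hF⟩ := hN₀ N hN
    exact ⟨S, hS, fun F hF' => hF F ((structured_iff D k r G F).1 hF')⟩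

end Pool.Agent.Results.MP_90b327_co.CriticalDensity
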