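import Mathlib
import Pool.Agent.TH484.PH.Main

set_option autoImplicit false

namespace Pool.Agent.Results.MP_90b327_co.SignsAndPolynomials

open Finset

/-- `cube d γ` is `γ^d`, the set of all `d`-tuples with entries in `γ`. -/
def cube {N : ℕ} (d : ℕ) (γ : Finset (Fin N)) : Finset (Fin d → Fin N) :=
  Fintype.piFinset (fun _ : Fin d => γ)

/-- A family `S` of subsets of `[N]^d` is good if there are `A ∈ S` and a nonempty `γ ⊆ [N]` with
`A ∩ γ^d = ∅` and `A ∪ γ^d ∈ S`. -/
def Good {N d : ℕ} (S : Finset (Finset (Fin d → Fin N))) : Prop :=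
  ∃ A ∈ S, ∃ γ : Finset (Fin N), γ.Nonempty ∧ Disjoint A (cube d γ) ∧ A ∪ cube d γ ∈ S

/-- The polynomial of degree at most `D` with coefficients `c` and values in the abelian group `G`:
`A ↦ ∑ c T`, the sum over all subsets `T ⊆ A` with at most `D` elements. -/
def poly {E G : Type} [AddCommGroup G] (D : ℕ) (c : Finset E → G) (A : Finset E) : G :=
  ∑ T ∈ A.powerset.filter (fun T => T.card ≤ D), c T

/-- The difference of `h` in direction `e`: `A ↦ h (A ∪ {e}) - h (A \ {e})`. -/
def diff {E : Type} [DecidableEq E] (e : E) (h : Finset E → ℝ) (A : Finset E) : ℝ :=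
  h (insert e A) - h (A.erase e)

/-- All differences of order `k` of `h` have constant sign: for all `e₁, …, e_k` the function
`diff e₁ (… (diff e_k h))` is nowhere negative or nowhere positive (which of the two may depend on
`e₁, …, e_k`). -/
def ConstSign {E : Type} [DecidableEq E] : ℕ → (Finset E → ℝ) → Prop
  | 0, h => (∀ A, 0 ≤ h A) ∨ (∀ A, h A ≤ 0)
  | k + 1, h => ∀ e, ConstSign k (diff e h)

lemma reg_of_constSign {E : Type} [DecidableEq E] (k : ℕ) : ∀ h : Finset E → ℝ, ConstSign k h →
    Pool.Agent.TH484.PH.Reg k h := by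
  induction k with
  | zero => exact fun h hh => hh
  | succ k ih => exact fun h hh e => ih _ (hh e)

/-- The restricted density polynomial Hales-Jewett statement holds, for every `d ≥ 1` and all positive
densities, for the families `F = {A : R (0 < h₁ A, …, 0 < h_r A, q A)}`, `R` any condition, where
`q` is a polynomial of degree at most `D` with values in a finite abelian group `G` and each `hᵢ` is a
real function of `A` for which all differences of some order `j`, `1 ≤ j ≤ k`, have constant sign;
also if a small proportion of all sets is removed from such a family: for all `D`, `k`, `r`, `G`, `δ`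
there are `ε > 0` and `N₀` such that for `N ≥ N₀` every family `S` which contains all but at most
`ε 2^(N^d)` of the sets in such an `F` with at least `δ 2^(N^d)` elements is good. -/
theorem result : ∀ d : ℕ, 1 ≤ d → ∀ D k r : ℕ, ∀ (G : Type) [AddCommGroup G] [Finite G], ∀ δ : ℝ,
    0 < δ → ∃ ε : ℝ, 0 < ε ∧ ∃ N₀ : ℕ, ∀ N : ℕ, N₀ ≤ N →
      ∀ (h : Fin r → Finset (Fin d → Fin N) → ℝ) (c : Finset (Fin d → Fin N) → G)
        (R : (Fin r → Prop) → G → Prop) (F S : Finset (Finset (Fin d → Fin N))),
        (∀ i, ∃ j, 1 ≤ j ∧ j ≤ k ∧ ConstSign j (h i)) →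
        (∀ A, A ∈ F ↔ R (fun i => 0 < h i A) (poly D c A)) → δ * (2 : ℝ) ^ (N ^ d) ≤ F.card →
          ((F \ S).card : ℝ) ≤ ε * (2 : ℝ) ^ (N ^ d) → Good S := by
  intro d hd D k r G _ _ δ hδ
  obtain ⟨ε, hε, N₀, hN₀⟩ := Pool.Agent.TH484.PH.main d hd D k r G δ hδ
  refine ⟨ε, hε, N₀, fun N hN h c R F S hh hF hFc hFS => ?_⟩
  refine hN₀ N hN h c R F S (fun i => ?_) hF hFc hFS
  obtain ⟨j, h1, h2, h3⟩ := hh i
  exact ⟨j, h1, h2, reg_of_constSign j (h i) h3⟩

end Pool.Agent.Results.MP_90b327_co.SignsAndPolynomials
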