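import Mathlib
import Pool.Agent.TH635.PH.Cube2
import Pool.Agent.TH635.PH.Many
import Pool.Agent.TH635.PH.Thr
import Pool.Agent.TH635.BV.Thr2

set_option autoImplicit false

namespace Pool.Agent.Results.MP_90b327_co.Universality

open Finset Pool.Agent.H720R3 Pool.Agent.TH635.PH

/-- `cube d γ` is `γ^d`, the set of all `d`-tuples with entries in `γ`. -/
def cube {N : ℕ} (d : ℕ) (γ : Finset (Fin N)) : Finset (Fin d → Fin N) :=
  Fintype.piFinset (fun _ : Fin d => γ)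

/-- A family `S` of subsets of `[N]^d` is good if there are `A ∈ S` and a nonempty `γ ⊆ [N]` with
`A ∩ γ^d = ∅` and `A ∪ γ^d ∈ S`. -/
def Good {N d : ℕ} (S : Finset (Finset (Fin d → Fin N))) : Prop :=
  ∃ A ∈ S, ∃ γ : Finset (Fin N), γ.Nonempty ∧ Disjoint A (cube d γ) ∧ A ∪ cube d γ ∈ S

/-- A family `S` of words `[N]^d → Q` is good for the letters `a`, `b` if it contains words `x`, `y`
for which there is a nonempty `γ ⊆ [N]` such that `x = a` and `y = b` on `γ^d` and `x = y` off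
`γ^d`. -/
def GoodWords {N d : ℕ} {Q : Type} (a b : Q) (S : Finset ((Fin d → Fin N) → Q)) : Prop :=
  ∃ x ∈ S, ∃ y ∈ S, ∃ γ : Finset (Fin N), γ.Nonempty ∧ (∀ c ∈ cube d γ, x c = a ∧ y c = b) ∧
    ∀ c, c ∉ cube d γ → x c = y c

/-- For every density above `δ` there is one `N` for which all families of that density are
good. -/
def OneSize (d : ℕ) (δ : ℝ) : Prop :=
  ∀ δ' : ℝ, δ < δ' → ∃ N : ℕ, ∀ S : Finset (Finset (Fin d → Fin N)),
    δ' * 2 ^ (N ^ d) < S.card → Good S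

/-- The same for all large `N`. -/
def Uniform (d : ℕ) (δ : ℝ) : Prop :=
  ∀ δ' : ℝ, δ < δ' → ∃ N₀ : ℕ, ∀ N : ℕ, N₀ ≤ N → ∀ S : Finset (Finset (Fin d → Fin N)),
    δ' * 2 ^ (N ^ d) < S.card → Good S

/-- The same for words over every finite alphabet `Q`, every two letters `a`, `b`, and every product
probability weight on the words (the weights of the letters may change from place to place) which
gives `a` and `b` weight at least `N ^ (-κ)` at every place; `κ` and `N₀` depend on `d` and `δ'`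
only. -/
def AllProducts (d : ℕ) (δ : ℝ) : Prop :=
  ∀ δ' : ℝ, δ < δ' → ∃ κ : ℝ, 0 < κ ∧ ∃ N₀ : ℕ, ∀ N : ℕ, N₀ ≤ N →
    ∀ (Q : Type) [Fintype Q] [DecidableEq Q] (a b : Q) (p : (Fin d → Fin N) → Q → ℝ),
      (∀ c q, 0 ≤ p c q) → (∀ c, ∑ q, p c q = 1) →
      (∀ c, (N : ℝ) ^ (-κ) ≤ p c a ∧ (N : ℝ) ^ (-κ) ≤ p c b) →
        ∀ S : Finset ((Fin d → Fin N) → Q), δ' < ∑ x ∈ S, ∏ c, p c (x c) → GoodWords a b S

/-- For every density above `δ` there are one `m` and one probability weight `w` on the subsets of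
`[m]^d` for which all families of that density are good. -/
def SomeWeight (d : ℕ) (δ : ℝ) : Prop :=
  ∀ δ' : ℝ, δ < δ' → ∃ (m : ℕ) (w : Finset (Fin d → Fin m) → ℝ), (∀ A, 0 ≤ w A) ∧
    ∑ A, w A = 1 ∧ ∀ S : Finset (Finset (Fin d → Fin m)), δ' < ∑ A ∈ S, w A → Good S

/-- For every `δ' > δ` there is `m` such that no random family of subsets of `[m]^d` which is almost
surely not good contains every subset of `[m]^d` with probability more than `δ'`; in other words the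
graph on the subsets of `[m]^d`, in which `A` is joined to `A ∪ γ^d` when `A ∩ γ^d = ∅`, has
fractional chromatic number at least `1 / δ'`. -/
def Fractional (d : ℕ) (δ : ℝ) : Prop :=
  ∀ δ' : ℝ, δ < δ' → ∃ m : ℕ, ∀ ℓ : Finset (Finset (Fin d → Fin m)) → ℝ, (∀ T, 0 ≤ ℓ T) →
    ∑ T, ℓ T = 1 → (∀ T, Good T → ℓ T = 0) → ∃ A, ∑ T with A ∈ T, ℓ T ≤ δ'

/-- For every density above `δ` every family of that density contains a positive proportion of all
possible pairs `A`, `A ∪ γ^d` with `|γ| = k`, for some `k` below a bound depending on `d` and the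
density. -/
def Many (d : ℕ) (δ : ℝ) : Prop :=
  ∀ δ' : ℝ, δ < δ' → ∃ (m : ℕ) (c : ℝ), 0 < c ∧ ∀ N : ℕ, m ≤ N →
    ∀ S : Finset (Finset (Fin d → Fin N)), δ' * 2 ^ (N ^ d) < S.card →
      ∃ k : ℕ, 1 ≤ k ∧ k ≤ m ∧ c * 2 ^ (N ^ d) * (N.choose k) ≤
        ((univ.filter fun q : Finset (Fin d → Fin N) × Finset (Fin N) =>
          q.2.card = k ∧ q.1 ∈ S ∧ Disjoint q.1 (cube d q.2) ∧ q.1 ∪ cube d q.2 ∈ S).card : ℝ)

/-- The density above which the statements are proved: `0.3223` for `d = 2` and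
`(2^(d-1) - 1)/(2^d - 1)` for the other `d`. -/
noncomputable def proved (d : ℕ) : ℝ :=
  if d = 2 then 3223 / 10000 else ((2 : ℝ) ^ (d - 1) - 1) / (2 ^ d - 1)

lemma good_iff {N d : ℕ} (S : Finset (Finset (Fin d → Fin N))) : Good S ↔ Gd d S := by
  constructor
  · rintro ⟨A, hA, γ, hγ, h1, h2⟩
    exact ⟨A, hA, _, h2, γ, hγ, h1, rfl⟩
  · rintro ⟨A, hA, B, hB, γ, hγ, h1, rfl⟩
    exact ⟨A, hA, γ, hγ, h1, hB⟩

lemma some_all {d : ℕ} (hd : 1 ≤ d) {δ : ℝ} (h : SomeWeight d δ) : AllProducts d δ := by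
  intro δ' hδ
  obtain ⟨m, w, hw, hw1, hwS⟩ := h ((δ + δ') / 2) (by linarith)
  exact some_to_words hd (by linarith : (δ + δ') / 2 < δ') w hw hw1
    fun T hT => (good_iff T).1 (hwS T hT)

lemma all_uniform {d : ℕ} {δ : ℝ} (h : AllProducts d δ) : Uniform d δ := by
  intro δ' hδ
  obtain ⟨κ, hκ, hN⟩ := h δ' hδ
  obtain ⟨N₀, hN₀⟩ := words_to_uniform hκ hN
  exact ⟨N₀, fun N hN S hS => (good_iff S).2 (hN₀ N hN S hS)⟩

lemma uniform_many {d : ℕ} {δ : ℝ} (h : Uniform d δ) : Many d δ := by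
  intro δ' hδ
  obtain ⟨n, hn⟩ := h ((δ + δ') / 2) (by linarith)
  have hn' := hn n le_rfl
  have hlt : (δ + δ') / 2 < δ' := by linarith
  refine ⟨n, (δ' - (δ + δ') / 2) / 2 ^ (n ^ d + n), div_pos (by linarith) (by positivity),
    fun N hN S hS => ?_⟩
  obtain ⟨k, hk1, hk2, hk3⟩ := many hlt (fun T hT => (good_iff T).1 (hn' T hT)) hN hS
  refine ⟨k, hk1, hk2, hk3.trans ?_⟩
  have hsub : (univ.filter fun q : Finset (Fin d → Fin N) × Finset (Fin N) =>
      prs S q ∧ q.2.card = k) ⊆ (univ.filter fun q : Finset (Fin d → Fin N) × Finset (Fin N) =>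
        q.2.card = k ∧ q.1 ∈ S ∧ Disjoint q.1 (cube d q.2) ∧ q.1 ∪ cube d q.2 ∈ S) := by
    intro q hq
    obtain ⟨-, ⟨-, h1, h2, h3⟩, h4⟩ := mem_filter.1 hq
    exact mem_filter.2 ⟨mem_univ _, h4, h1, h2, h3⟩
  exact_mod_cast card_le_card hsub

lemma many_one {d : ℕ} {δ : ℝ} (h : Many d δ) : OneSize d δ := by
  intro δ' hδ
  obtain ⟨m, c, hc, hm⟩ := h δ' hδ
  refine ⟨m, fun S hS => ?_⟩
  obtain ⟨k, hk1, hk2, hk3⟩ := hm m le_rfl S hS
  have hpos : (0 : ℝ) < c * 2 ^ (m ^ d) * (m.choose k) := by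
    have : (0 : ℝ) < (m.choose k : ℝ) := by exact_mod_cast Nat.choose_pos hk2
    positivity
  have hcard := lt_of_lt_of_le hpos hk3
  have hcard' : 0 < (univ.filter fun q : Finset (Fin d → Fin m) × Finset (Fin m) =>
      q.2.card = k ∧ q.1 ∈ S ∧ Disjoint q.1 (cube d q.2) ∧ q.1 ∪ cube d q.2 ∈ S).card := by
    exact_mod_cast hcard
  obtain ⟨q, hq⟩ := card_pos.1 hcard'
  obtain ⟨-, h1, h2, h3, h4⟩ := mem_filter.1 hq
  exact ⟨q.1, h2, q.2, card_pos.1 (by omega), h3, h4⟩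

lemma one_some {d : ℕ} {δ : ℝ} (h : OneSize d δ) : SomeWeight d δ := by
  intro δ' hδ
  obtain ⟨N, hN⟩ := h δ' hδ
  refine ⟨N, fun _ => 1 / 2 ^ (N ^ d), fun _ => by positivity, ?_, fun S hS => hN S ?_⟩
  · simp
  · rw [sum_const, nsmul_eq_mul, mul_one_div, lt_div_iff₀ (by positivity)] at hS
    exact hS

lemma some_fractional {d : ℕ} {δ : ℝ} (h : SomeWeight d δ) : Fractional d δ := by
  classical
  intro δ' hδ
  obtain ⟨m, w, hw, hw1, hwS⟩ := h δ' hδ
  refine ⟨m, fun ℓ hℓ hℓ1 hℓG => ?_⟩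
  by_contra hcon
  push Not at hcon
  -- some `A` has positive weight
  have h1 : δ' < ∑ A, w A * ∑ T with A ∈ T, ℓ T := by
    have hne : ∃ A ∈ (univ : Finset (Finset (Fin d → Fin m))), 0 < w A := by
      by_contra hz
      push Not at hz
      have : ∑ A, w A ≤ 0 := sum_nonpos fun A hA => hz A hA
      linarith
    obtain ⟨A₀, -, hA₀⟩ := hne
    calc δ' = ∑ A, w A * δ' := by rw [← sum_mul, hw1, one_mul]
      _ < ∑ A, w A * ∑ T with A ∈ T, ℓ T :=
          sum_lt_sum (fun A _ => mul_le_mul_of_nonneg_left (hcon A).le (hw A))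
            ⟨A₀, mem_univ _, mul_lt_mul_of_pos_left (hcon A₀) hA₀⟩
  have h2 : ∑ A, w A * ∑ T with A ∈ T, ℓ T = ∑ T, ℓ T * ∑ A ∈ T, w A := by
    have e1 : ∀ A : Finset (Fin d → Fin m), w A * ∑ T with A ∈ T, ℓ T
        = ∑ T, if A ∈ T then w A * ℓ T else 0 := by
      intro A
      rw [mul_sum, sum_filter]
    rw [sum_congr rfl fun A _ => e1 A, sum_comm]
    refine sum_congr rfl fun T _ => ?_
    rw [mul_sum, ← sum_filter]
    have : univ.filter (fun A => A ∈ T) = T := by ext A; simp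
    rw [this]
    exact sum_congr rfl fun A _ => mul_comm _ _
  have h3 : ∑ T, ℓ T * ∑ A ∈ T, w A ≤ δ' := by
    calc _ ≤ ∑ T, ℓ T * δ' := by
          refine sum_le_sum fun T _ => ?_
          by_cases hT : Good T
          · rw [hℓG T hT, zero_mul, zero_mul]
          · refine mul_le_mul_of_nonneg_left ?_ (hℓ T)
            by_contra hlt
            exact hT (hwS T (not_le.1 hlt))
      _ = δ' := by rw [← sum_mul, hℓ1, one_mul]
  linarith

lemma fractional_uniform {d : ℕ} (hd : 1 ≤ d) {δ : ℝ} (h : Fractional d δ) : Uniform d δ := by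
  classical
  intro δ' hδ
  by_contra hcon
  push Not at hcon
  obtain ⟨m, hm⟩ := h ((δ + δ') / 2) (by linarith)
  obtain ⟨ℓ, h1, h2, h3, h4⟩ := random_bad hd (by linarith : (δ + δ') / 2 < δ')
    (fun N₀ => by
      obtain ⟨N, hN, S, hS, hg⟩ := hcon N₀
      exact ⟨N, hN, S, hS, fun hg' => hg ((good_iff S).2 hg')⟩) m
  obtain ⟨A, hA⟩ := hm ℓ h1 h2 fun T hT => h3 T ((good_iff T).1 hT)
  have h5 := h4 A
  rw [sum_filter] at hA
  linarith

lemma uniform_one {d : ℕ} {δ : ℝ} (h : Uniform d δ) : OneSize d δ := by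
  intro δ' hδ
  obtain ⟨N₀, hN₀⟩ := h δ' hδ
  exact ⟨N₀, hN₀ N₀ le_rfl⟩

lemma threshold (d : ℕ) (hd : 1 ≤ d) : Uniform d (proved d) := by
  unfold proved
  by_cases h : d = 2
  · subst h
    rw [if_pos rfl]
    exact fun δ' hδ => Pool.Agent.TH635.BV.thr2 δ' hδ
  · rw [if_neg h]
    exact fun δ' hδ => Thr.thr d hd δ' hδ

/-- **The critical density of the restricted density polynomial Hales-Jewett problem is
universal.** -/
theorem result (d : ℕ) (hd : 1 ≤ d) :
    (∀ δ : ℝ, List.TFAE [OneSize d δ, Uniform d δ, AllProducts d δ, SomeWeight d δ,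
      Fractional d δ, Many d δ]) ∧
    AllProducts d (proved d) ∧ Many d (proved d) := by
  refine ⟨fun δ => ?_, ?_, ?_⟩
  · tfae_have 1 → 4 := one_some
    tfae_have 4 → 3 := some_all hd
    tfae_have 3 → 2 := all_uniform
    tfae_have 2 → 6 := uniform_many
    tfae_have 6 → 1 := many_one
    tfae_have 4 → 5 := some_fractional
    tfae_have 5 → 2 := fractional_uniform hd
    tfae_finish
  · exact some_all hd (one_some (uniform_one (threshold d hd)))
  · exact uniform_many (threshold d hd)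

end Pool.Agent.Results.MP_90b327_co.Universality
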