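import Mathlib
import Pool.Agent.TH635.PH.Thr
import Pool.Agent.TH635.BV.Thr2

set_option autoImplicit false

namespace Pool.Agent.Results.MP_90b327_co.VectorThreshold

open Finset

/-- `cube d γ` is `γ^d`, the set of all `d`-tuples with entries in `γ`. -/
def cube {N : ℕ} (d : ℕ) (γ : Finset (Fin N)) : Finset (Fin d → Fin N) :=
  Fintype.piFinset (fun _ : Fin d => γ)

/-- A family `S` of subsets of `[N]^d` is good if there are `A ∈ S` and a nonempty `γ ⊆ [N]` with
`A ∩ γ^d = ∅` and `A ∪ γ^d ∈ S`. -/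
def Good {N d : ℕ} (S : Finset (Finset (Fin d → Fin N))) : Prop :=
  ∃ A ∈ S, ∃ γ : Finset (Fin N), γ.Nonempty ∧ Disjoint A (cube d γ) ∧ A ∪ cube d γ ∈ S

/-- The density above which the statement is proved: `0.3223` for `d = 2`, and
`(2^(d-1) - 1)/(2^d - 1)` for the other `d`; this is `0` for `d = 1` and `3/7` for `d = 3`. -/
noncomputable def threshold (d : ℕ) : ℝ :=
  if d = 2 then 3223 / 10000 else ((2 : ℝ) ^ (d - 1) - 1) / (2 ^ d - 1)

/-- For every `d ≥ 1` the restricted density polynomial Hales-Jewett statement holds for all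
densities above `threshold d` (so the case `d = 1` is Sperner's). -/
theorem result : ∀ d : ℕ, 1 ≤ d → ∀ δ : ℝ, threshold d < δ →
    ∃ N₀ : ℕ, ∀ N : ℕ, N₀ ≤ N → ∀ S : Finset (Finset (Fin d → Fin N)),
      δ * (2 : ℝ) ^ (N ^ d) < S.card → Good S := by
  intro d hd δ hδ
  unfold threshold at hδ
  by_cases h : d = 2
  · subst h
    rw [if_pos rfl] at hδ
    exact Pool.Agent.TH635.BV.thr2 δ hδ
  · rw [if_neg h] at hδ
    exact Pool.Agent.TH635.PH.Thr.thr d hd δ hδ

end Pool.Agent.Results.MP_90b327_co.VectorThreshold
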